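import Mathlib
import Pool.Agent.H49.G.R_seed8.Y957.VK.Stm

/-!
PROJECT VK (helper957), part CNT: the counting step in Vinogradov's method.
-/

set_option autoImplicit false

namespace Pool.Agent.Y950.VK

open Finset Pool.Agent.Y957.VK

lemma count_eq {α G : Type} [AddCommGroup G] [DecidableEq G] (T : Finset α) (φ : α → G) (v : G) :
    ((T ×ˢ T).filter fun z => φ z.1 - φ z.2 = v).card =
      ∑ k ∈ T.image φ, (T.filter fun u => φ u = k + v).card * (T.filter fun u => φ u = k).card := by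
  rw [Finset.card_eq_sum_card_fiberwise (f := fun z => φ z.2) (t := T.image φ)]
  · apply Finset.sum_congr rfl
    intro k _
    rw [← Finset.card_product]
    congr 1
    ext ⟨u, w⟩
    simp only [mem_filter, mem_product]
    constructor
    · rintro ⟨⟨⟨h1, h2⟩, h3⟩, h4⟩
      exact ⟨⟨h1, by rw [← h4, ← h3]; abel⟩, h2, h4⟩
    · rintro ⟨⟨h1, h2⟩, h3, h4⟩
      exact ⟨⟨⟨h1, h3⟩, by rw [h2, h4]; abel⟩, h4⟩
  · intro z hz
    rw [Finset.mem_coe, mem_filter, mem_product] at hz
    rw [Finset.mem_coe]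
    exact mem_image_of_mem _ hz.1.2

lemma shift_count {α G : Type} [AddCommGroup G] [DecidableEq G] (T : Finset α) (φ : α → G) (v : G) :
    ((T ×ˢ T).filter fun z => φ z.1 - φ z.2 = v).card ≤
      ((T ×ˢ T).filter fun z => φ z.1 = φ z.2).card := by
  have h0 : ((T ×ˢ T).filter fun z => φ z.1 = φ z.2) =
      ((T ×ˢ T).filter fun z => φ z.1 - φ z.2 = 0) := by
    apply Finset.filter_congr
    intro z _
    rw [sub_eq_zero]
  rw [h0, count_eq, count_eq]
  simp only [add_zero]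
  set N : G → ℕ := fun k => (T.filter fun u => φ u = k).card with hN
  change ∑ k ∈ T.image φ, N (k + v) * N k ≤ ∑ k ∈ T.image φ, N k * N k
  have h1 : ∑ k ∈ T.image φ, N (k + v) * N (k + v) ≤ ∑ k ∈ T.image φ, N k * N k := by
    have h2 : ∑ k ∈ T.image φ, N (k + v) * N (k + v) =
        ∑ k ∈ (T.image φ).image (fun k => k + v), N k * N k :=
      (Finset.sum_image (s := T.image φ) (g := fun k => k + v) (f := fun k => N k * N k)
        (fun x _ y _ h => add_right_cancel h)).symm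
    rw [h2]
    apply Finset.sum_le_sum_of_ne_zero
    intro k _ hk
    have h3 : N k ≠ 0 := fun h => hk (by rw [h, mul_zero])
    rw [hN] at h3
    obtain ⟨u, hu⟩ := Finset.card_ne_zero.mp h3
    rw [mem_filter] at hu
    exact mem_image.mpr ⟨u, hu.1, hu.2⟩
  have h2 : 2 * ∑ k ∈ T.image φ, N (k + v) * N k ≤
      ∑ k ∈ T.image φ, N (k + v) * N (k + v) + ∑ k ∈ T.image φ, N k * N k := by
    rw [Finset.mul_sum, ← Finset.sum_add_distrib]
    apply Finset.sum_le_sum
    intro k _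
    have := two_mul_le_add_sq (N (k + v)) (N k)
    nlinarith
  omega

/-- the power sums -/
def ph (s r : ℕ) (u : Fin s → ℕ) : Fin r → ℤ := fun j => ∑ i, (u i : ℤ) ^ ((j : ℕ) + 1)

lemma J_eq (s r Y : ℕ) : J s r Y =
    ((Tu s Y ×ˢ Tu s Y).filter fun z => ph s r z.1 = ph s r z.2).card := by
  unfold J
  congr 1
  apply Finset.filter_congr
  intro z _
  constructor
  · intro h
    funext j
    have h1 := h (j + 1) (Finset.mem_Icc.mpr ⟨by omega, by have := j.2; omega⟩)
    unfold ph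
    exact_mod_cast h1
  · intro h j hj
    rw [Finset.mem_Icc] at hj
    have h1 := congrFun h ⟨j - 1, by omega⟩
    unfold ph at h1
    simp only [Nat.sub_add_cancel hj.1] at h1
    exact_mod_cast h1

lemma expand {s : ℕ} (x : Fin s → ℤ) (h : ℤ) (j : ℕ) :
    ∑ i, (x i - h) ^ j = ∑ l ∈ range (j + 1), (∑ i, x i ^ l) * ((-h) ^ (j - l) * (j.choose l : ℤ)) := by
  simp only [sub_eq_add_neg, add_pow]
  rw [Finset.sum_comm]
  apply Finset.sum_congr rfl
  intro l _
  rw [Finset.sum_mul]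
  apply Finset.sum_congr rfl
  intro i _
  ring

lemma binom {s r : ℕ} (x y : Fin r → ℕ) (u w : Fin s → ℕ) (h : ℤ)
    (he : ∀ j ∈ Finset.Icc 1 r, ∑ i, x i ^ j + ∑ i, u i ^ j = ∑ i, y i ^ j + ∑ i, w i ^ j)
    (j : ℕ) (hj : j ≤ r) :
    ∑ i, ((x i : ℤ) - h) ^ j + ∑ i, ((u i : ℤ) - h) ^ j =
      ∑ i, ((y i : ℤ) - h) ^ j + ∑ i, ((w i : ℤ) - h) ^ j := by
  rw [expand, expand, expand, expand, ← Finset.sum_add_distrib, ← Finset.sum_add_distrib]
  apply Finset.sum_congr rfl
  intro l hl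
  rw [Finset.mem_range] at hl
  rw [← add_mul, ← add_mul]
  congr 1
  rcases Nat.eq_zero_or_pos l with h0 | h0
  · subst h0
    simp
  · have := he l (Finset.mem_Icc.mpr ⟨h0, by omega⟩)
    exact_mod_cast this

lemma res {p a n : ℕ} (hn : n % p = a) :
    (n : ℤ) - ((a : ℤ) - p) = p * ((n / p + 1 : ℕ) : ℤ) := by
  have h1 : (n : ℤ) = p * (n / p : ℕ) + a := by
    have := Nat.div_add_mod n p
    rw [hn] at this
    exact_mod_cast this.symm
  rw [h1]
  push_cast
  have h2 : ((p * (n / p : ℕ) + a : ℤ)) / p = (n / p : ℕ) := by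
    rw [← h1]
    push_cast
    rfl
  push_cast at h2
  ring

lemma res_sum {s p a : ℕ} {u : Fin s → ℕ} (hu : ∀ i, u i % p = a) (j : ℕ) :
    ∑ i, ((u i : ℤ) - ((a : ℤ) - p)) ^ j = (p : ℤ) ^ j * ∑ i, ((u i / p + 1 : ℕ) : ℤ) ^ j := by
  rw [Finset.mul_sum]
  apply Finset.sum_congr rfl
  intro i _
  rw [res (hu i), mul_pow]

/-- **CNT**. -/
theorem cnt (h : S_LIN) : S_CNT := by
  classical
  intro s r p X a hr hp hrp hX ha
  set h0 : ℤ := (a : ℤ) - p with hh0
  have hp0 : (p : ℤ) ≠ 0 := by exact_mod_cast hp.ne_zero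
  set G : Finset ((Fin r → ℕ) × (Fin r → ℕ)) := (Tu r X ×ˢ Tu r X).filter fun q =>
    (∀ i j, i ≠ j → q.1 i % p ≠ q.1 j % p) ∧
    ∀ j ∈ Finset.Icc 1 r, (p : ℤ) ^ j ∣ ∑ i, ((q.1 i : ℤ) - h0) ^ j - ∑ i, ((q.2 i : ℤ) - h0) ^ j
    with hG
  -- the number of good pairs
  have hGc : G.card ≤ (r.factorial * p ^ (r * (r - 1) / 2)) * X ^ r := by
    have h1 : (Tu r X).card = X ^ r := by
      unfold Tu
      rw [Fintype.card_piFinset]
      simp
    rw [← h1]
    refine Finset.card_le_mul_card_image_of_maps_to (f := Prod.snd) ?_ _ ?_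
    · intro q hq
      rw [hG, mem_filter, mem_product] at hq
      exact hq.1.2
    · intro y _
      refine le_trans ?_ (h r p X hr hp hrp hX h0 (fun j => ∑ i, ((y i : ℤ) - h0) ^ j))
      refine Finset.card_le_card_of_injOn Prod.fst ?_ ?_
      · intro q hq
        rw [Finset.mem_coe, mem_filter, hG, mem_filter, mem_product] at hq
        obtain ⟨⟨⟨h2, h3⟩, h4, h5⟩, h6⟩ := hq
        rw [Finset.mem_coe, mem_filter]
        refine ⟨h2, h4, fun j hj => ?_⟩
        rw [← h6]
        exact h5 j hj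
      · intro q hq q' hq' hqq
        rw [Finset.mem_coe, mem_filter] at hq hq'
        exact Prod.ext hqq (hq.2.trans hq'.2.symm)
  -- the fibres
  have hBA : BA s r p X a ≤ J s r (X / p + 1) * G.card := by
    unfold BA
    refine Finset.card_le_mul_card_image_of_maps_to (f := Prod.fst) ?_ _ ?_
    · intro z hz
      rw [mem_filter, mem_product, mem_product, mem_product] at hz
      obtain ⟨⟨h1, h2⟩, ⟨h3, h4, h5, h6⟩, h7⟩ := hz
      rw [hG, mem_filter, mem_product]
      refine ⟨h1, h3, fun j hj => ?_⟩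
      have h8 := binom z.1.1 z.1.2 z.2.1 z.2.2 h0 h7 j (Finset.mem_Icc.mp hj).2
      rw [hh0, res_sum h5, res_sum h6, ← hh0] at h8
      refine ⟨∑ i, ((z.2.2 i / p + 1 : ℕ) : ℤ) ^ j - ∑ i, ((z.2.1 i / p + 1 : ℕ) : ℤ) ^ j, ?_⟩
      linear_combination h8
    · rintro ⟨x, y⟩ _
      set v : Fin r → ℤ := fun j => (∑ i, ((y i : ℤ) - h0) ^ ((j : ℕ) + 1) -
        ∑ i, ((x i : ℤ) - h0) ^ ((j : ℕ) + 1)) / (p : ℤ) ^ ((j : ℕ) + 1) with hv
      rw [J_eq]
      refine le_trans ?_ (shift_count (Tu s (X / p + 1)) (ph s r) v)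
      refine Finset.card_le_card_of_injOn
        (fun z => (fun i => z.2.1 i / p + 1, fun i => z.2.2 i / p + 1)) ?_ ?_
      · intro z hz
        rw [Finset.mem_coe, mem_filter, mem_filter, mem_product, mem_product, mem_product] at hz
        obtain ⟨⟨⟨h1, h2⟩, ⟨h3, h4, h5, h6⟩, h7⟩, h9⟩ := hz
        rw [Finset.mem_coe, mem_filter, mem_product]
        have hu : ∀ i, z.2.1 i ∈ Finset.Icc 1 X := Fintype.mem_piFinset.mp h2.1
        have hw : ∀ i, z.2.2 i ∈ Finset.Icc 1 X := Fintype.mem_piFinset.mp h2.2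
        refine ⟨⟨?_, ?_⟩, ?_⟩
        · refine Fintype.mem_piFinset.mpr fun i => ?_
          have h10 := Nat.div_le_div_right (c := p) (Finset.mem_Icc.mp (hu i)).2
          exact Finset.mem_Icc.mpr ⟨Nat.le_add_left _ _, Nat.add_le_add_right h10 1⟩
        · refine Fintype.mem_piFinset.mpr fun i => ?_
          have h10 := Nat.div_le_div_right (c := p) (Finset.mem_Icc.mp (hw i)).2
          exact Finset.mem_Icc.mpr ⟨Nat.le_add_left _ _, Nat.add_le_add_right h10 1⟩
        · funext j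
          have h8 := binom z.1.1 z.1.2 z.2.1 z.2.2 h0 h7 ((j : ℕ) + 1) (by have := j.2; omega)
          rw [hh0, res_sum h5, res_sum h6, ← hh0, h9] at h8
          show ∑ i, ((z.2.1 i / p + 1 : ℕ) : ℤ) ^ ((j : ℕ) + 1) -
            ∑ i, ((z.2.2 i / p + 1 : ℕ) : ℤ) ^ ((j : ℕ) + 1) = v j
          rw [hv]
          symm
          apply Int.ediv_eq_of_eq_mul_right (pow_ne_zero _ hp0)
          linear_combination -h8
      · intro z hz z' hz' hzz
        rw [Finset.mem_coe, mem_filter, mem_filter] at hz hz'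
        obtain ⟨⟨-, ⟨-, -, h5, h6⟩, -⟩, h9⟩ := hz
        obtain ⟨⟨-, ⟨-, -, h5', h6'⟩, -⟩, h9'⟩ := hz'
        have e1 := congrArg Prod.fst hzz
        have e2 := congrArg Prod.snd hzz
        refine Prod.ext (h9.trans h9'.symm) (Prod.ext ?_ ?_)
        · funext i
          have := congrFun e1 i
          simp only at this
          rw [← Nat.div_add_mod (z.2.1 i) p, ← Nat.div_add_mod (z'.2.1 i) p, h5, h5']
          have h10 : z.2.1 i / p = z'.2.1 i / p := by omega
          rw [h10]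
        · funext i
          have := congrFun e2 i
          simp only at this
          rw [← Nat.div_add_mod (z.2.2 i) p, ← Nat.div_add_mod (z'.2.2 i) p, h6, h6']
          have h10 : z.2.2 i / p = z'.2.2 i / p := by omega
          rw [h10]
  calc BA s r p X a ≤ J s r (X / p + 1) * G.card := hBA
    _ ≤ J s r (X / p + 1) * ((r.factorial * p ^ (r * (r - 1) / 2)) * X ^ r) :=
        Nat.mul_le_mul_left _ hGc
    _ = _ := by ring

end Pool.Agent.Y950.VK
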